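import Mathlib
import Pool.Agent.Y920.EP.Stm

set_option autoImplicit false

/-! A valuation ring `O'` which is integral over a small subring: the last part. -/

namespace Pool.Agent.V7H42.EW

open Pool.Agent.Y920.EP

section

variable {F : Type} [Field F] {p : ℕ} {T : Subgroup Fˣ} {O' : ValuationSubring F}

/-- the largest ideal of `O'` with one-units in `T` -/
def II (T : Subgroup Fˣ) (O' : ValuationSubring F) : Set F :=
  {x | ∀ z ∈ O', ∃ t : Fˣ, t ∈ T ∧ (t : F) = 1 + x * z}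

lemma ii_zero : (0 : F) ∈ II T O' := by
  intro z _
  exact ⟨1, T.one_mem, by simp⟩

lemma ii_mul {x c : F} (hx : x ∈ II T O') (hc : c ∈ O') : x * c ∈ II T O' := by
  intro z hz
  obtain ⟨t, ht, e⟩ := hx (c * z) (mul_mem hc hz)
  exact ⟨t, ht, by rw [e, mul_assoc]⟩

lemma ii_mul' {x c : F} (hx : x ∈ II T O') (hc : c ∈ O') : c * x ∈ II T O' := by
  rw [mul_comm]
  exact ii_mul hx hc

lemma ii_neg {x : F} (hx : x ∈ II T O') : -x ∈ II T O' := by
  have := ii_mul hx (neg_mem (one_mem O'))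
  rwa [mul_neg_one] at this

lemma ii_nm {x : F} (hx : x ∈ II T O') (h0 : x ≠ 0) : x⁻¹ ∉ O' := by
  intro h
  obtain ⟨t, _, e⟩ := hx (-x⁻¹) (neg_mem h)
  rw [mul_neg, mul_inv_cancel₀ h0, add_neg_cancel] at e
  exact t.ne_zero e

lemma ii_sub {x : F} (hx : x ∈ II T O') : x ∈ O' := by
  by_cases h0 : x = 0
  · rw [h0]; exact zero_mem _
  · exact (O'.mem_or_inv_mem x).resolve_right (ii_nm hx h0)

lemma ii_one : (1 : F) ∉ II T O' := by
  intro h
  exact ii_nm h one_ne_zero (by rw [inv_one]; exact one_mem _)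

lemma ii_add {x y : F} (hx : x ∈ II T O') (hy : y ∈ II T O') : x + y ∈ II T O' := by
  have key : ∀ x y : F, x ∈ II T O' → y ∈ II T O' → x / y ∈ O' → y ≠ 0 →
      x + y ∈ II T O' := by
    intro x y hx hy hxy hy0
    have e : x + y = y * (x / y + 1) := by
      rw [mul_add, mul_div_cancel₀ _ hy0, mul_one]
    rw [e]
    exact ii_mul hy (add_mem hxy (one_mem _))
  by_cases hx0 : x = 0
  · rw [hx0, zero_add]; exact hy
  by_cases hy0 : y = 0
  · rw [hy0, add_zero]; exact hx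
  rcases O'.mem_or_inv_mem (x / y) with h | h
  · exact key x y hx hy h hy0
  · rw [inv_div] at h
    rw [add_comm]
    exact key y x hy hx h hx0

lemma ii_t {x : F} (hx : x ∈ II T O') : ∃ t : Fˣ, t ∈ T ∧ (t : F) = 1 + x := by
  obtain ⟨t, ht, e⟩ := hx 1 (one_mem _)
  exact ⟨t, ht, by rw [e, mul_one]⟩

/-- units of `O'` near `1` -/
lemma one_add_inv {s : F} (hs' : s = 0 ∨ s⁻¹ ∉ O') : 1 + s ≠ 0 ∧ (1 + s)⁻¹ ∈ O' := by
  rcases hs' with h2 | h2
  · rw [h2, add_zero, inv_one]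
    exact ⟨one_ne_zero, one_mem _⟩
  have hs0 : s ≠ 0 := by
    intro h
    apply h2
    rw [h, inv_zero]
    exact zero_mem _
  have h0 : 1 + s ≠ 0 := by
    intro h
    have h1 : s = -1 := by linear_combination h
    apply h2
    rw [h1, inv_neg, inv_one]
    exact neg_mem (one_mem _)
  refine ⟨h0, ?_⟩
  rcases O'.mem_or_inv_mem (s / (1 + s)) with h | h
  · have e : (1 + s)⁻¹ = 1 - s / (1 + s) := by
      field_simp
      ring
    rw [e]
    exact sub_mem (one_mem _) h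
  · exfalso
    apply h2
    have e : s⁻¹ = (s / (1 + s))⁻¹ - 1 := by
      field_simp
      ring
    rw [e]
    exact sub_mem h (one_mem _)

/-- `(1 + s / p) ^ p = 1 + s + s ^ 2 q` -/
lemma binom_p (hpO : (p : F)⁻¹ ∈ O') (hp0 : (p : F) ≠ 0) {s : F} (hs : s ∈ O') :
    ∃ q ∈ O', (1 + s * (p : F)⁻¹) ^ p = 1 + s + s ^ 2 * q := by
  obtain ⟨k, hk⟩ := Polynomial.binomExpansion (Polynomial.X ^ p : Polynomial O') 1
    (⟨s, hs⟩ * ⟨(p : F)⁻¹, hpO⟩)
  refine ⟨(k : F) * ((p : F)⁻¹) ^ 2, mul_mem k.2 (pow_mem hpO 2), ?_⟩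
  have h1 := congrArg (fun x : O' => (x : F)) hk
  simp only [Polynomial.eval_pow, Polynomial.eval_X, Polynomial.derivative_X_pow,
    Polynomial.eval_mul, one_pow, mul_one] at h1
  push_cast at h1
  rw [h1]
  simp
  field_simp

lemma ii_sq (hp0 : (p : F) ≠ 0) (hT : pwG F p ≤ T) (hpO : (p : F)⁻¹ ∈ O') {x : F} (hx : x ∈ O')
    (h2 : x ^ 2 ∈ II T O') : x ∈ II T O' := by
  by_cases hx0 : x = 0
  · rw [hx0]; exact ii_zero
  have hx' : x⁻¹ ∉ O' := by
    intro h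
    have h3 := ii_mul h2 (pow_mem h 2)
    rw [← mul_pow, mul_inv_cancel₀ hx0, one_pow] at h3
    exact ii_one h3
  intro z hz
  have hsO : x * z ∈ O' := mul_mem hx hz
  obtain ⟨q, hq, eq⟩ := binom_p hpO hp0 hsO
  have hs : x * z * (p : F)⁻¹ = 0 ∨ (x * z * (p : F)⁻¹)⁻¹ ∉ O' := by
    by_cases h3 : x * z * (p : F)⁻¹ = 0
    · exact Or.inl h3
    · right
      intro h4
      apply hx'
      have h5 : x⁻¹ = (x * z * (p : F)⁻¹)⁻¹ * (z * (p : F)⁻¹) := by
        have hz0 : z ≠ 0 := by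
          rintro rfl
          simp at h3
        field_simp
      rw [h5]
      exact mul_mem h4 (mul_mem hz hpO)
  obtain ⟨h0, hinv⟩ := one_add_inv hs
  obtain ⟨t, ht, et⟩ := h2 (-(z ^ 2 * q * ((1 + x * z * (p : F)⁻¹)⁻¹) ^ p))
    (neg_mem (mul_mem (mul_mem (pow_mem hz 2) hq) (pow_mem hinv p)))
  refine ⟨(Units.mk0 _ h0) ^ p * t, T.mul_mem (hT ⟨Units.mk0 _ h0, rfl⟩) ht, ?_⟩
  rw [Units.val_mul, Units.val_pow_eq_pow_val, Units.val_mk0, et, mul_add, mul_one]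
  have e : (1 + x * z * (p : F)⁻¹) ^ p *
      (x ^ 2 * -(z ^ 2 * q * ((1 + x * z * (p : F)⁻¹)⁻¹) ^ p)) = - ((x * z) ^ 2 * q) := by
    rw [inv_pow]
    have h6 : (1 + x * z * (p : F)⁻¹) ^ p ≠ 0 := pow_ne_zero _ h0
    generalize (1 + x * z * (p : F)⁻¹) ^ p = B at h6 ⊢
    field_simp
  rw [e, eq]
  ring

lemma ii_prime (hp0 : (p : F) ≠ 0) (hT : pwG F p ≤ T) (hpO : (p : F)⁻¹ ∈ O') {x y : F}
    (hx : x ∈ O') (hy : y ∈ O') (hxI : x ∉ II T O') (hyI : y ∉ II T O') : x * y ∉ II T O' := by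
  intro h
  have hx0 : x ≠ 0 := by rintro rfl; exact hxI ii_zero
  have hy0 : y ≠ 0 := by rintro rfl; exact hyI ii_zero
  rcases O'.mem_or_inv_mem (x / y) with h1 | h1
  · apply hxI
    refine ii_sq hp0 hT hpO hx ?_
    have h2 := ii_mul h h1
    have e : x * y * (x / y) = x ^ 2 := by field_simp
    rwa [e] at h2
  · rw [inv_div] at h1
    apply hyI
    refine ii_sq hp0 hT hpO hy ?_
    have h2 := ii_mul h h1
    have e : x * y * (y / x) = y ^ 2 := by field_simp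
    rwa [e] at h2

/-- the coarser ring -/
def O2 (hp0 : (p : F) ≠ 0) (hT : pwG F p ≤ T) (hpO : (p : F)⁻¹ ∈ O') : ValuationSubring F where
  carrier := {z | z = 0 ∨ z⁻¹ ∉ II T O'}
  zero_mem' := Or.inl rfl
  one_mem' := Or.inr (by rw [inv_one]; exact ii_one)
  mul_mem' := by
    rintro a b (rfl | ha) (rfl | hb)
    · exact Or.inl (zero_mul _)
    · exact Or.inl (zero_mul _)
    · exact Or.inl (mul_zero _)
    by_cases ha0 : a = 0
    · exact Or.inl (by rw [ha0, zero_mul])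
    by_cases hb0 : b = 0
    · exact Or.inl (by rw [hb0, mul_zero])
    refine Or.inr fun h => ?_
    rw [mul_inv] at h
    have ha' : a⁻¹ ∈ O' := by
      rcases O'.mem_or_inv_mem a with h1 | h1
      · exfalso
        apply hb
        have h2 := ii_mul h h1
        have e : a⁻¹ * b⁻¹ * a = b⁻¹ := by field_simp
        rwa [e] at h2
      · exact h1
    have hb' : b⁻¹ ∈ O' := by
      rcases O'.mem_or_inv_mem b with h1 | h1
      · exfalso
        apply ha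
        have h2 := ii_mul h h1
        have e : a⁻¹ * b⁻¹ * b = a⁻¹ := by field_simp
        rwa [e] at h2
      · exact h1
    exact ii_prime hp0 hT hpO ha' hb' ha hb h
  add_mem' := by
    have key : ∀ a b : F, (a = 0 ∨ a⁻¹ ∉ II T O') → (b = 0 ∨ b⁻¹ ∉ II T O') → b ≠ 0 →
        a / b ∈ O' → (a + b = 0 ∨ (a + b)⁻¹ ∉ II T O') := by
      intro a b ha hb hb0 hab
      by_cases h0 : a + b = 0
      · exact Or.inl h0
      refine Or.inr fun h => ?_
      have h1 := ii_mul h (add_mem hab (one_mem O'))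
      have e : (a + b)⁻¹ * (a / b + 1) = b⁻¹ := by field_simp
      rw [e] at h1
      exact (hb.resolve_left hb0) h1
    intro a b ha hb
    by_cases ha0 : a = 0
    · show a + b = 0 ∨ _
      rw [ha0, zero_add]; exact hb
    by_cases hb0 : b = 0
    · show a + b = 0 ∨ _
      rw [hb0, add_zero]; exact ha
    rcases O'.mem_or_inv_mem (a / b) with h1 | h1
    · exact key a b ha hb hb0 h1
    · rw [inv_div] at h1
      have := key b a hb ha ha0 h1
      show a + b = 0 ∨ _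
      rwa [add_comm] at this
  neg_mem' := by
    rintro a (rfl | ha)
    · exact Or.inl neg_zero
    · refine Or.inr fun h => ha ?_
      rw [inv_neg] at h
      have := ii_neg h
      rwa [neg_neg] at this
  mem_or_inv_mem' := by
    intro a
    by_cases ha0 : a = 0
    · exact Or.inl (Or.inl ha0)
    by_cases h : a⁻¹ ∈ II T O'
    · right
      refine Or.inr fun h2 => ?_
      rw [inv_inv] at h2
      have h3 := ii_mul h (ii_sub h2)
      rw [inv_mul_cancel₀ ha0] at h3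
      exact ii_one h3
    · exact Or.inl (Or.inr h)

variable (hp0 : (p : F) ≠ 0) (hT : pwG F p ≤ T) (hpO : (p : F)⁻¹ ∈ O')

lemma mem_o2 {z : F} : z ∈ O2 hp0 hT hpO ↔ z = 0 ∨ z⁻¹ ∉ II T O' := Iff.rfl

lemma o2_non {y : F} (hy' : y⁻¹ ∉ O2 hp0 hT hpO) : y ∈ II T O' := by
  by_contra h
  exact hy' (Or.inr (by rwa [inv_inv]))

lemma o2_inv {y : F} (h : y ∉ II T O') : y⁻¹ ∈ O2 hp0 hT hpO := Or.inr (by rwa [inv_inv])

lemma le_o2 {y : F} (h : y ∈ O') : y ∈ O2 hp0 hT hpO := by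
  by_cases h0 : y = 0
  · exact Or.inl h0
  · refine Or.inr fun h2 => ?_
    have := ii_nm h2 (inv_ne_zero h0)
    rw [inv_inv] at this
    exact this h

/-- `I` is an ideal of the coarser ring -/
lemma o2_mul {x y : F} (hx : x ∈ II T O') (hy : y ∈ O2 hp0 hT hpO) : y * x ∈ II T O' := by
  by_contra h
  have h1 := o2_inv hp0 hT hpO h
  have hy0 : y ≠ 0 := by
    rintro rfl
    rw [zero_mul] at h
    exact h ii_zero
  have hx0 : x ≠ 0 := by
    rintro rfl
    rw [mul_zero] at h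
    exact h ii_zero
  have h2 := mul_mem hy h1
  have e : y * (y * x)⁻¹ = x⁻¹ := by field_simp
  rw [e] at h2
  rcases h2 with h3 | h3
  · exact inv_ne_zero hx0 h3
  · rw [inv_inv] at h3
    exact h3 hx

include hp0 hT hpO in
lemma o2_unit {x y : F} (hx : x ∉ II T O') (hy : y ∉ II T O') : x * y ∉ II T O' := by
  intro h
  have h1 := o2_mul hp0 hT hpO h (o2_inv hp0 hT hpO hx)
  rw [← mul_assoc, inv_mul_cancel₀ (by rintro rfl; exact hx ii_zero), one_mul] at h1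
  exact hy h1

include hp0 hT hpO in
lemma o2_pow {x : F} (hx : x ∉ II T O') (n : ℕ) : x ^ n ∉ II T O' := by
  induction n with
  | zero => rw [pow_zero]; exact ii_one
  | succ n ih =>
    rw [pow_succ]
    exact o2_unit hp0 hT hpO ih hx

lemma mem_ug {O : ValuationSubring F} {u : Fˣ} :
    u ∈ O.unitGroup ↔ (u : F) ∈ O ∧ (u : F)⁻¹ ∈ O := by
  rw [← ValuationSubring.valuation_le_one_iff, ← ValuationSubring.valuation_le_one_iff, map_inv₀]
  constructor
  · intro h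
    have h1 : O.valuation u = 1 := h
    rw [h1, inv_one]
    exact ⟨le_rfl, le_rfl⟩
  · rintro ⟨h1, h2⟩
    have h0 : O.valuation u ≠ 0 := (Valuation.ne_zero_iff _).2 u.ne_zero
    show O.valuation u = 1
    refine le_antisymm h1 ?_
    rwa [inv_le_one₀ (zero_lt_iff.2 h0)] at h2

/-- elements which some element of `T`, unit in the coarser ring, multiplies into `R + I` -/
def PA (T : Subgroup Fˣ) (O' : ValuationSubring F) (R : Subring F) (z : F) : Prop :=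
  ∃ t : Fˣ, t ∈ T ∧ (t : F) ∈ O' ∧ (t : F) ∉ II T O' ∧ ∃ r ∈ R, ∃ i ∈ II T O', t * z = r + i

variable {R : Subring F}

lemma pa_of_r {z : F} (hz : z ∈ R) : PA T O' R z :=
  ⟨1, T.one_mem, one_mem _, ii_one, z, hz, 0, ii_zero, by simp⟩

include hp0 hT hpO in
lemma pa_add (hRO : ∀ z ∈ R, z ∈ O') (hTR : ∀ y : Fˣ, y ∈ T → (y : F) ∈ O' → (y : F) ∈ R)
    {x y : F} (hx : PA T O' R x) (hy : PA T O' R y) : PA T O' R (x + y) := by
  obtain ⟨t, ht, htO, htI, r, hr, i, hi, e⟩ := hx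
  obtain ⟨t', ht', htO', htI', r', hr', i', hi', e'⟩ := hy
  refine ⟨t * t', T.mul_mem ht ht', mul_mem htO htO', o2_unit hp0 hT hpO htI htI',
    t' * r + t * r', add_mem (mul_mem (hTR t' ht' htO') hr) (mul_mem (hTR t ht htO) hr'),
    t' * i + t * i', ii_add (ii_mul' hi htO') (ii_mul' hi' htO), ?_⟩
  rw [Units.val_mul]
  linear_combination (t' : F) * e + (t : F) * e'

include hp0 hT hpO in
lemma pa_mul (hRO : ∀ z ∈ R, z ∈ O') {x y : F} (hx : PA T O' R x) (hy : PA T O' R y) :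
    PA T O' R (x * y) := by
  obtain ⟨t, ht, htO, htI, r, hr, i, hi, e⟩ := hx
  obtain ⟨t', ht', htO', htI', r', hr', i', hi', e'⟩ := hy
  refine ⟨t * t', T.mul_mem ht ht', mul_mem htO htO', o2_unit hp0 hT hpO htI htI',
    r * r', mul_mem hr hr', r * i' + i * (r' + i'),
    ii_add (ii_mul' hi' (hRO r hr)) (ii_mul hi (add_mem (hRO r' hr') (ii_sub hi'))), ?_⟩
  rw [Units.val_mul]
  linear_combination (t' * y) * e + (r + i) * e'

include hp0 hT hpO in
lemma pa_pow (hRO : ∀ z ∈ R, z ∈ O') {x : F} (hx : PA T O' R x) (n : ℕ) :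
    PA T O' R (x ^ n) := by
  induction n with
  | zero => rw [pow_zero]; exact pa_of_r (one_mem _)
  | succ n ih => rw [pow_succ]; exact pa_mul hp0 hT hpO hRO ih hx

lemma pa_of_i {z : F} (hz : z ∈ II T O') : PA T O' R z :=
  ⟨1, T.one_mem, one_mem _, ii_one, 0, zero_mem _, z, hz, by simp⟩

lemma pa_of_t (hTR : ∀ y : Fˣ, y ∈ T → (y : F) ∈ O' → (y : F) ∈ R) {τ : Fˣ} (hτ : τ ∈ T)
    (h : (τ : F) ∈ O2 hp0 hT hpO) : PA T O' R (τ : F) := by
  by_cases h1 : (τ : F) ∈ O'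
  · exact pa_of_r (hTR τ hτ h1)
  · have h2 := (O'.mem_or_inv_mem (τ : F)).resolve_left h1
    refine ⟨τ⁻¹, T.inv_mem hτ, by rwa [Units.val_inv_eq_inv_val], ?_, 1, one_mem _, 0, ii_zero, ?_⟩
    · rw [Units.val_inv_eq_inv_val]
      exact h.resolve_left τ.ne_zero
    · rw [Units.inv_mul, add_zero]

/-- the pigeonhole argument -/
lemma pa_all (hp : p.Prime) (hTR : ∀ y : Fˣ, y ∈ T → (y : F) ∈ O' → (y : F) ∈ R)
    (hRO : ∀ z ∈ R, z ∈ O') (S : Set (Fˣ ⧸ T)) (hS : S.Finite)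
    (hSu : ∀ v : Fˣ, (v : F) ∈ O2 hp0 hT hpO → (v : F)⁻¹ ∈ O2 hp0 hT hpO → (v : Fˣ ⧸ T) ∈ S)
    (u : Fˣ) (huO : (u : F) ∈ O') (huI : (u : F) ∉ II T O') (huO' : (u : F)⁻¹ ∉ O')
    {θ : F} (hθ : θ ∈ O2 hp0 hT hpO) : PA T O' R θ := by
  by_contra hA
  -- the elements `θ + u ^ (p n)`
  have heT : ∀ n : ℕ, u ^ (p * n) ∈ T := fun n => hT ⟨u ^ n, by simp [mul_comm p n, pow_mul]⟩
  have heO : ∀ n : ℕ, ((u : F)) ^ (p * n) ∈ O' := fun n => pow_mem huO _
  have heR : ∀ n : ℕ, ((u : F)) ^ (p * n) ∈ R := fun n => by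
    have := hTR _ (heT n) (by rw [Units.val_pow_eq_pow_val]; exact heO n)
    rwa [Units.val_pow_eq_pow_val] at this
  have h1 : ∀ n : ℕ, θ + (u : F) ^ (p * n) ∉ II T O' := by
    intro n h
    apply hA
    have h2 := pa_add hp0 hT hpO hRO hTR (pa_of_i (R := R) h) (pa_of_r (neg_mem (heR n)))
    rwa [add_neg_cancel_right] at h2
  have h0 : ∀ n : ℕ, θ + (u : F) ^ (p * n) ≠ 0 := fun n h => h1 n (by rw [h]; exact ii_zero)
  have h2 : ∀ n : ℕ, θ + (u : F) ^ (p * n) ∈ O2 hp0 hT hpO := fun n =>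
    add_mem hθ (le_o2 hp0 hT hpO (heO n))
  have key : ∀ n m : ℕ, n < m → Units.mk0 _ (h0 n) / Units.mk0 _ (h0 m) ∈ T → False := by
    intro n m hnm hτ
    obtain ⟨τ, hτe⟩ : ∃ τ : Fˣ, τ = Units.mk0 _ (h0 n) / Units.mk0 _ (h0 m) := ⟨_, rfl⟩
    rw [← hτe] at hτ
    have e : θ + (u : F) ^ (p * n) = τ * (θ + (u : F) ^ (p * m)) := by
      rw [hτe, Units.val_div_eq_div_val, Units.val_mk0, Units.val_mk0, div_mul_cancel₀ _ (h0 m)]
    have hτ2 : (τ : F) ∈ O2 hp0 hT hpO := by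
      rw [hτe, Units.val_div_eq_div_val, Units.val_mk0, Units.val_mk0, div_eq_mul_inv]
      exact mul_mem (h2 n) (o2_inv hp0 hT hpO (h1 m))
    have hPτ := pa_of_t hp0 hT hpO hTR hτ hτ2
    have e2 : θ * (1 - τ) = τ * (u : F) ^ (p * m) - (u : F) ^ (p * n) := by
      linear_combination e
    by_cases h3 : (1 : F) - τ ∈ II T O'
    · have h4 := o2_mul hp0 hT hpO h3 hθ
      rw [e2] at h4
      have h5 := ii_add h4 (ii_mul' h3 (heO m))
      have e3 : (τ : F) * (u : F) ^ (p * m) - (u : F) ^ (p * n) + (u : F) ^ (p * m) * (1 - τ) =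
          -((u : F) ^ (p * n) * (1 + -(u : F) ^ (p * (m - n)))) := by
        have : (u : F) ^ (p * m) = (u : F) ^ (p * n) * (u : F) ^ (p * (m - n)) := by
          rw [← pow_add, ← mul_add, Nat.add_sub_cancel' hnm.le]
        rw [this]
        ring
      rw [e3] at h5
      have h6 := ii_neg h5
      rw [neg_neg] at h6
      refine o2_unit hp0 hT hpO (o2_pow hp0 hT hpO huI (p * n)) ?_ h6
      obtain ⟨h7, h8⟩ := one_add_inv (O' := O') (s := -(u : F) ^ (p * (m - n))) (Or.inr (by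
        intro h9
        apply huO'
        have h10 : p * (m - n) ≠ 0 := Nat.mul_ne_zero hp.ne_zero (by omega)
        have h11 : (u : F)⁻¹ = -((-(u : F) ^ (p * (m - n)))⁻¹ * (u : F) ^ (p * (m - n) - 1)) := by
          have h12 : (u : F) ^ (p * (m - n)) = (u : F) ^ (p * (m - n) - 1) * u := by
            rw [← pow_succ, Nat.sub_add_cancel (Nat.one_le_iff_ne_zero.2 h10)]
          have h13 : (u : F) ^ (p * (m - n) - 1) ≠ 0 := pow_ne_zero _ u.ne_zero
          have h14 : (u : F) ≠ 0 := u.ne_zero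
          rw [h12]
          generalize (u : F) ^ (p * (m - n) - 1) = B at h13 ⊢
          field_simp
        rw [h11]
        exact neg_mem (mul_mem h9 (pow_mem huO _))))
      intro h9
      exact ii_nm h9 h7 h8
    · have h4 : (1 : F) - τ ≠ 0 := fun h => h3 (by rw [h]; exact ii_zero)
      apply hA
      have h5 : PA T O' R (1 - (τ : F)) := by
        have h6 := pa_add hp0 hT hpO hRO hTR (pa_of_r (T := T) (O' := O') (one_mem R))
          (pa_mul hp0 hT hpO hRO (pa_of_r (neg_mem (one_mem R))) hPτ)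
        have e4 : (1 : F) + -1 * (τ : F) = 1 - τ := by ring
        rwa [e4] at h6
      have h6 : PA T O' R ((((Units.mk0 _ h4) ^ p)⁻¹ : Fˣ) : F) := by
        refine pa_of_t hp0 hT hpO hTR (T.inv_mem (hT ⟨Units.mk0 _ h4, rfl⟩)) ?_
        rw [Units.val_inv_eq_inv_val, Units.val_pow_eq_pow_val, Units.val_mk0, ← inv_pow]
        exact pow_mem (o2_inv hp0 hT hpO h3) p
      have h7 : PA T O' R ((τ : F) * (u : F) ^ (p * m) - (u : F) ^ (p * n)) := by
        have h8 := pa_add hp0 hT hpO hRO hTR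
          (pa_mul hp0 hT hpO hRO hPτ (pa_of_r (heR m))) (pa_of_r (neg_mem (heR n)))
        rwa [← sub_eq_add_neg] at h8
      have h8 := pa_mul hp0 hT hpO hRO h7 (pa_mul hp0 hT hpO hRO (pa_pow hp0 hT hpO hRO h5 (p - 1)) h6)
      rw [← e2] at h8
      have e5 : θ * (1 - (τ : F)) * ((1 - (τ : F)) ^ (p - 1) *
          ((((Units.mk0 _ h4) ^ p)⁻¹ : Fˣ) : F)) = θ := by
        rw [Units.val_inv_eq_inv_val, Units.val_pow_eq_pow_val, Units.val_mk0]
        have h9 : (1 - (τ : F)) ^ p = (1 - (τ : F)) ^ (p - 1) * (1 - τ) := by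
          rw [← pow_succ, Nat.sub_add_cancel hp.one_le]
        have h10 : (1 - (τ : F)) ^ (p - 1) ≠ 0 := pow_ne_zero _ h4
        rw [h9]
        generalize (1 - (τ : F)) ^ (p - 1) = B at h10 ⊢
        generalize (1 - (τ : F)) = C at h4 ⊢
        field_simp
      rwa [e5] at h8
  -- pigeonhole
  have hfS : Finite S := hS
  obtain ⟨n, m, hnm, he⟩ := Finite.exists_ne_map_eq_of_infinite
    (fun n : ℕ => (⟨(Units.mk0 _ (h0 n) : Fˣ ⧸ T), hSu _ (by rw [Units.val_mk0]; exact h2 n)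
      (by rw [Units.val_mk0]; exact o2_inv hp0 hT hpO (h1 n))⟩ : S))
  have he' : (Units.mk0 _ (h0 n) : Fˣ ⧸ T) = (Units.mk0 _ (h0 m) : Fˣ ⧸ T) :=
    congrArg Subtype.val he
  rcases lt_or_gt_of_ne hnm with h | h
  · refine key n m h ?_
    rw [QuotientGroup.eq] at he'
    have := T.inv_mem he'
    rwa [mul_inv_rev, inv_inv, mul_comm, ← div_eq_mul_inv] at this
  · refine key m n h ?_
    rw [QuotientGroup.eq] at he'
    rwa [mul_comm, ← div_eq_mul_inv] at he'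

/-- one factor for all elements -/
lemma uniform (hp : p.Prime) (hTR : ∀ y : Fˣ, y ∈ T → (y : F) ∈ O' → (y : F) ∈ R)
    (hRO : ∀ z ∈ R, z ∈ O')
    (hA : ∀ θ : F, θ ∈ O2 hp0 hT hpO → PA T O' R θ) (S : Finset (Fˣ ⧸ T)) :
    ∃ t : Fˣ, t ∈ T ∧ (t : F) ∈ O' ∧ (t : F) ∉ II T O' ∧ ∀ z : Fˣ, (z : F) ∈ O' →
      (z : F) ∉ II T O' → (z : Fˣ ⧸ T) ∈ S → ∃ r ∈ R, ∃ i ∈ II T O', (t : F) * z = r + i := by
  classical
  induction S using Finset.induction_on with
  | empty => exact ⟨1, T.one_mem, one_mem _, ii_one, fun z _ _ h => absurd h (Finset.notMem_empty _)⟩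
  | insert c S hc ih =>
    obtain ⟨t, ht, htO, htI, htS⟩ := ih
    by_cases hz : ∃ zc : Fˣ, (zc : F) ∈ O2 hp0 hT hpO ∧ (zc : F)⁻¹ ∈ O2 hp0 hT hpO ∧
        (zc : Fˣ ⧸ T) = c
    · obtain ⟨zc, hz1, hz2, hzc⟩ := hz
      obtain ⟨t1, ht1, ht1O, ht1I, r1, hr1, i1, hi1, e1⟩ := hA _ hz1
      have hzI : (zc : F) ∉ II T O' := by
        have := hz2.resolve_left (inv_ne_zero zc.ne_zero)
        rwa [inv_inv] at this
      obtain ⟨t2, ht2, ht2O, ht2I, ht2z⟩ : ∃ t2 : Fˣ, t2 ∈ T ∧ (t2 : F) ∈ O' ∧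
          (t2 : F) ∉ II T O' ∧ (t2 : F) * (zc : F)⁻¹ ∈ O' := by
        by_cases h : (zc : F)⁻¹ ∈ O'
        · exact ⟨1, T.one_mem, one_mem _, ii_one, by rwa [Units.val_one, one_mul]⟩
        · have h' := (O'.mem_or_inv_mem (zc : F)).resolve_right h
          refine ⟨zc ^ p, hT ⟨zc, rfl⟩, ?_, ?_, ?_⟩
          · rw [Units.val_pow_eq_pow_val]; exact pow_mem h' p
          · rw [Units.val_pow_eq_pow_val]; exact o2_pow hp0 hT hpO hzI p
          · rw [Units.val_pow_eq_pow_val]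
            have h9 : (zc : F) ^ p = (zc : F) ^ (p - 1) * zc := by
              rw [← pow_succ, Nat.sub_add_cancel hp.one_le]
            rw [h9, mul_inv_cancel_right₀ zc.ne_zero]
            exact pow_mem h' _
      refine ⟨t * (t1 * t2), T.mul_mem ht (T.mul_mem ht1 ht2),
        mul_mem htO (mul_mem ht1O ht2O),
        o2_unit hp0 hT hpO htI (o2_unit hp0 hT hpO ht1I ht2I), ?_⟩
      intro z hzO hzI' hzS
      rcases Finset.mem_insert.1 hzS with h | h
      · -- the class of `zc`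
        have hs : t2 * zc⁻¹ * z ∈ T := by
          rw [mul_assoc]
          refine T.mul_mem ht2 ?_
          rw [← QuotientGroup.eq, hzc, h]
        have hsR := hTR _ hs (by
          rw [Units.val_mul, Units.val_mul, Units.val_inv_eq_inv_val]
          exact mul_mem ht2z hzO)
        refine ⟨t * (r1 * ((t2 * zc⁻¹ * z : Fˣ) : F)), mul_mem (hTR t ht htO) (mul_mem hr1 hsR),
          t * (i1 * ((t2 * zc⁻¹ * z : Fˣ) : F)), ii_mul' (ii_mul hi1 (hRO _ hsR)) htO, ?_⟩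
        rw [Units.val_mul, Units.val_mul]
        have e3 : ((t2 * zc⁻¹ * z : Fˣ) : F) = t2 * (zc : F)⁻¹ * z := by
          rw [Units.val_mul, Units.val_mul, Units.val_inv_eq_inv_val]
        rw [e3]
        have h0 : (zc : F) ≠ 0 := zc.ne_zero
        have e4 : (t : F) * (t1 * t2) * z = t * ((t1 * zc) * (t2 * (zc : F)⁻¹ * z)) := by
          field_simp
        rw [e4, e1]
        ring
      · obtain ⟨r, hr, i, hi, e⟩ := htS z hzO hzI' h
        refine ⟨((t1 * t2 : Fˣ) : F) * r, mul_mem (hTR _ (T.mul_mem ht1 ht2) (by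
          rw [Units.val_mul]; exact mul_mem ht1O ht2O)) hr, ((t1 * t2 : Fˣ) : F) * i,
          ii_mul' hi (by rw [Units.val_mul]; exact mul_mem ht1O ht2O), ?_⟩
        rw [Units.val_mul]
        linear_combination ((t1 * t2 : Fˣ) : F) * e
    · refine ⟨t, ht, htO, htI, fun z hzO hzI hzS => ?_⟩
      rcases Finset.mem_insert.1 hzS with h | h
      · exfalso
        apply hz
        exact ⟨z, le_o2 hp0 hT hpO hzO, o2_inv hp0 hT hpO hzI, h⟩
      · exact htS z hzO hzI h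

end

/-- the last part of the argument -/
theorem last_part {F : Type} [Field F] {p : ℕ} (hp : p.Prime) (hp0 : (p : F) ≠ 0)
    {T : Subgroup Fˣ} (hT : pwG F p ≤ T)
    (O' O : ValuationSubring F) (hpO : (p : F)⁻¹ ∈ O') (hOO : O' ≤ O)
    (hO : ∀ y : F, y ∈ O → y⁻¹ ∉ O → ∃ t ∈ T, ((t : Fˣ) : F) = 1 + y)
    (hfin : T.relIndex (O.unitGroup ⊔ T) ≠ 0)
    (R : Subring F) (hRO : ∀ z ∈ R, z ∈ O')
    (hTR : ∀ y : Fˣ, y ∈ T → (y : F) ∈ O' → (y : F) ∈ R)
    (J : AddSubgroup F) (hRJ : ∀ z ∈ R, ∀ j ∈ J, z * j ∈ J)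
    (hJ : ∀ j ∈ J, ∃ t : Fˣ, t ∈ T ∧ (t : F) = 1 + j ∧ (t : F) ∈ O' ∧ (t : F)⁻¹ ∈ O')
    (b : Fˣ) (hb : ∀ w : Fˣ, w / b ∈ T → (w : F) ∈ O' → (w : F) ∈ J ∧ (w : F)⁻¹ ∉ O')
    (hunits : ∀ O₂ : ValuationSubring F,
      (∀ y : F, y ∈ O₂ → y⁻¹ ∉ O₂ → ∃ t ∈ T, ((t : Fˣ) : F) = 1 + y) →
        b ∈ O₂.unitGroup ⊔ T) : False := by
  classical
  have hone : ∀ y : F, y ∈ O2 hp0 hT hpO → y⁻¹ ∉ O2 hp0 hT hpO →
      ∃ t ∈ T, ((t : Fˣ) : F) = 1 + y := by
    intro y _ hy'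
    obtain ⟨t, ht, e⟩ := ii_t (o2_non hp0 hT hpO hy')
    exact ⟨t, ht, e⟩
  -- the ideal of `O` lies in `I`
  have hmO : ∀ y ∈ O, y⁻¹ ∉ O → y ∈ II T O' := by
    intro y hy hy' z hz
    by_cases hz0 : z = 0
    · exact ⟨1, T.one_mem, by rw [hz0]; simp⟩
    obtain ⟨t, ht, e⟩ := hO (y * z) (mul_mem hy (hOO hz)) (by
      intro h
      apply hy'
      have e : y⁻¹ = (y * z)⁻¹ * z := by
        rw [mul_inv, mul_assoc, inv_mul_cancel₀ hz0, mul_one]
      rw [e]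
      exact mul_mem h (hOO hz))
    exact ⟨t, ht, e⟩
  have hle : ∀ z : F, z ∈ O2 hp0 hT hpO → z ∈ O := by
    intro z hz
    by_contra h
    have h1 := (O.mem_or_inv_mem z).resolve_left h
    have h2 := hmO _ h1 (by rwa [inv_inv])
    rcases hz with h3 | h3
    · apply h
      rw [h3]
      exact zero_mem _
    · exact h3 h2
  -- the finite set of classes
  have hfC : Finite ((O.unitGroup ⊔ T).map (QuotientGroup.mk' T)) := by
    apply Nat.finite_of_card_ne_zero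
    rwa [← Subgroup.relIndex_ker, QuotientGroup.ker_mk']
  have hS : (((O.unitGroup ⊔ T).map (QuotientGroup.mk' T) : Subgroup (Fˣ ⧸ T)) :
      Set (Fˣ ⧸ T)).Finite := hfC
  have hSu : ∀ v : Fˣ, (v : F) ∈ O2 hp0 hT hpO → (v : F)⁻¹ ∈ O2 hp0 hT hpO →
      (v : Fˣ ⧸ T) ∈ (((O.unitGroup ⊔ T).map (QuotientGroup.mk' T) : Subgroup (Fˣ ⧸ T)) :
      Set (Fˣ ⧸ T)) := by
    intro v h1 h2
    exact ⟨v, Subgroup.mem_sup_left (mem_ug.2 ⟨hle _ h1, hle _ h2⟩), rfl⟩
  -- the element `u`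
  obtain ⟨u, hub, huO, huI⟩ : ∃ u : Fˣ, u / b ∈ T ∧ (u : F) ∈ O' ∧ (u : F) ∉ II T O' := by
    obtain ⟨u0, hu0, t, ht, e⟩ := Subgroup.mem_sup.1 (hunits _ hone)
    obtain ⟨hu1, hu2⟩ := mem_ug.1 hu0
    by_cases h : (u0 : F) ∈ O'
    · refine ⟨u0, ?_, h, ?_⟩
      · rw [← e, div_mul_cancel_left]
        exact T.inv_mem ht
      · have := hu2.resolve_left (inv_ne_zero u0.ne_zero)
        rwa [inv_inv] at this
    · have h' := (O'.mem_or_inv_mem (u0 : F)).resolve_left h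
      refine ⟨u0⁻¹ ^ (p - 1), ?_, ?_, ?_⟩
      · have e1 : u0⁻¹ ^ (p - 1) / b = (u0 ^ p)⁻¹ * t⁻¹ := by
          have h9 : u0 ^ p = u0 ^ (p - 1) * u0 := by
            rw [← pow_succ, Nat.sub_add_cancel hp.one_le]
          rw [h9, ← e, inv_pow, mul_inv, div_eq_mul_inv, mul_inv]
          group
        rw [e1]
        exact T.mul_mem (T.inv_mem (hT ⟨u0, rfl⟩)) (T.inv_mem ht)
      · rw [Units.val_pow_eq_pow_val, Units.val_inv_eq_inv_val]
        exact pow_mem h' _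
      · rw [Units.val_pow_eq_pow_val, Units.val_inv_eq_inv_val]
        exact o2_pow hp0 hT hpO (hu1.resolve_left u0.ne_zero) _
  obtain ⟨huJ, huO'⟩ := hb u hub huO
  have hA : ∀ θ : F, θ ∈ O2 hp0 hT hpO → PA T O' R θ := fun θ hθ =>
    pa_all hp0 hT hpO hp hTR hRO _ hS hSu u huO huI huO' hθ
  obtain ⟨t, ht, htO, htI, htS⟩ := uniform hp0 hT hpO hp hTR hRO hA hS.toFinset
  have htz : ∀ z : F, z ∈ O' → ∃ r ∈ R, ∃ i ∈ II T O', (t : F) * z = r + i := by
    intro z hz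
    by_cases hzI : z ∈ II T O'
    · exact ⟨0, zero_mem _, t * z, ii_mul' hzI htO, by rw [zero_add]⟩
    · have hz0 : z ≠ 0 := by
        rintro rfl
        exact hzI ii_zero
      refine htS (Units.mk0 z hz0) hz hzI ?_
      rw [Set.Finite.mem_toFinset]
      exact hSu _ (le_o2 hp0 hT hpO hz) (o2_inv hp0 hT hpO hzI)
  refine ii_prime hp0 hT hpO huO htO huI htI ?_
  intro z hz
  obtain ⟨r, hr, i, hi, e⟩ := htz z hz
  obtain ⟨t1, ht1, et1, ht1O, ht1O'⟩ := hJ (r * u) (hRJ r hr u huJ)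
  obtain ⟨t2, ht2, et2⟩ := ii_t (ii_mul (ii_mul' hi huO) ht1O')
  refine ⟨t1 * t2, T.mul_mem ht1 ht2, ?_⟩
  rw [Units.val_mul, et2, mul_add, mul_one]
  have h0 : (t1 : F) ≠ 0 := t1.ne_zero
  have e2 : (t1 : F) * (u * i * (t1 : F)⁻¹) = u * i := by field_simp
  rw [e2, et1]
  linear_combination (-(u : F)) * e

end Pool.Agent.V7H42.EW
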