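import Mathlib
import Pool.Agent.V7H42.ET.Rng

set_option autoImplicit false

/-! The small elements of a rigid class `b` with `b ^ 2 ≠ 1` (no condition on the class `b ^ 2`). -/

namespace Pool.Agent.V7H42.EW

open Pool.Agent.Y920.EP
open Pool.Agent.V7H42.ET

section

variable {F : Type} [Field F] {A : Type} [CommGroup A] {φ : Fˣ →* A} {b : A}

/-- the small elements of the class `b` -/
def PP (φ : Fˣ →* A) (b : A) (w : Fˣ) : Prop := φ w = b ∧ Sm φ w

lemma sm_iff {x z : Fˣ} (hz : (z : F) = 1 + x) : Sm φ x ↔ φ z = 1 := by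
  constructor
  · rintro ⟨z', hz', h⟩
    have : z = z' := Units.ext (by rw [hz, hz', Units.val_one])
    rw [this, h, map_one]
  · intro h
    exact ⟨z, by rw [hz, Units.val_one], by rw [h, map_one]⟩

lemma one_rig (hn : φ (-1) = 1) {x : Fˣ} (hx : φ x ∉ XX φ) :
    ∃ z : Fˣ, (z : F) = 1 + x ∧ (φ z = 1 ∨ φ z = φ x) := by
  obtain ⟨S, hS, h⟩ := sum2 hn (x := 1) (y := x) (by
    rw [map_one, one_div, xx_inv hn]
    exact hx)
  rw [map_one] at h
  exact ⟨S, by rw [hS, Units.val_one], h⟩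

lemma both {g : Fˣ} (h1 : Sm φ g) (h2 : Sm φ g⁻¹) : φ g = 1 := by
  obtain ⟨z, hz, e1⟩ := h1
  obtain ⟨z', hz', e2⟩ := h2
  rw [Units.val_one] at hz hz'
  rw [map_one] at e1 e2
  have h3 : z = z' * g := by
    apply Units.ext
    have hg0 : (g : F) ≠ 0 := g.ne_zero
    rw [Units.val_mul, hz, hz', Units.val_inv_eq_inv_val]
    field_simp
    ring
  rw [h3, map_mul, e2, one_mul] at e1
  exact e1

lemma ne_one_of (hb : b ∉ XX φ) : b ≠ 1 := fun h => hb (Or.inl h)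

/-- `-P = P` -/
lemma pp_neg (hn : φ (-1) = 1) (hb : b ∉ XX φ) (hbb : b * b ≠ 1) {w : Fˣ} (hw : PP φ b w) :
    PP φ b (-w) := by
  obtain ⟨hwb, hws⟩ := hw
  have hb1 := ne_one_of hb
  refine ⟨by rw [phi_neg hn, hwb], ?_⟩
  by_contra hs
  obtain ⟨z, hz, -⟩ := one_rig hn (x := w) (by rw [hwb]; exact hb)
  have hz1 : φ z = 1 := (sm_iff hz).1 hws
  obtain ⟨z', hz', h'⟩ := one_rig hn (x := -w) (by rw [phi_neg hn, hwb]; exact hb)
  rw [phi_neg hn, hwb] at h'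
  have hz'1 : φ z' = b := h'.resolve_left fun h => hs ((sm_iff hz').2 h)
  have hr : Rs φ (w * w) := by
    refine ⟨z * z', ?_, ?_, ?_, ?_⟩
    · rw [Units.val_mul, Units.val_mul, hz, hz', Units.val_neg]
      ring
    · rw [map_mul, hwb]; exact hbb
    · rw [map_mul, hz1, hz'1, one_mul]; exact hb1
    · rw [map_mul, map_mul, hz1, hz'1, hwb, one_mul]
      intro h
      exact hb1 (by rwa [eq_comm, mul_eq_left] at h)
  have e : w * (w * w)⁻¹ = w⁻¹ := by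
    rw [mul_inv, mul_inv_cancel_left]
  have h3 := rs_dd hn hr (w := w) (by rw [hwb]; exact hb) (by
    rw [e, map_inv, hwb, xx_inv hn]; exact hb)
  rw [e] at h3
  exact sm_excl (by rw [hwb]; exact hb) hws (h3.1 hws)

/-- `1 + x y` for small `x`, `y` -/
lemma pp_two (hn : φ (-1) = 1) (hb : b ∉ XX φ) (hbb : b * b ≠ 1) {x y : Fˣ} (hx : PP φ b x)
    (hy : PP φ b y) : ∃ u : Fˣ, (u : F) = 1 + x * y ∧ (φ u = 1 ∨ φ u = b * b) := by
  have h0 : (1 : F) + x * y ≠ 0 := by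
    intro h
    have h1 : x * y = -1 := by
      apply Units.ext
      rw [Units.val_mul, Units.val_neg, Units.val_one]
      linear_combination h
    apply hbb
    rw [← hn, ← h1, map_mul, hx.1, hy.1]
  refine ⟨Units.mk0 _ h0, rfl, ?_⟩
  by_contra hc
  push Not at hc
  obtain ⟨h1, h2⟩ := hc
  have hr : Rs φ (-(x * y)) := by
    refine ⟨Units.mk0 _ h0, ?_, ?_, h1, ?_⟩
    · rw [Units.val_neg, Units.val_mul, Units.val_mk0]
      ring
    · rw [phi_neg hn, map_mul, hx.1, hy.1]; exact hbb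
    · rw [phi_neg hn, map_mul, hx.1, hy.1]; exact h2
  have e : x * (-(x * y))⁻¹ = (-y)⁻¹ := by
    rw [← mul_neg, mul_inv, mul_inv_cancel_left]
  have h3 := rs_dd hn hr (w := x) (by rw [hx.1]; exact hb) (by
    rw [e, map_inv, phi_neg hn, hy.1, xx_inv hn]; exact hb)
  rw [e] at h3
  have h4 := pp_neg hn hb hbb hy
  exact sm_excl (by rw [h4.1]; exact hb) h4.2 (h3.1 hx.2)

lemma pp_inv' (hn : φ (-1) = 1) {x c : Fˣ} (hx : PP φ b x)
    (hc : (c : F) = 1 + x) : PP φ b (-(x / c)) ∧ ((c⁻¹ : Fˣ) : F) = 1 + ((-(x / c) : Fˣ) : F) := by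
  have hc1 : φ c = 1 := (sm_iff hc).1 hx.2
  have e : ((c⁻¹ : Fˣ) : F) = 1 + ((-(x / c) : Fˣ) : F) := by
    have hc0 : (c : F) ≠ 0 := c.ne_zero
    rw [Units.val_inv_eq_inv_val, Units.val_neg, Units.val_div_eq_div_val]
    field_simp
    rw [hc]
    ring
  refine ⟨⟨?_, (sm_iff e).2 (by rw [map_inv, hc1, inv_one])⟩, e⟩
  rw [phi_neg hn, map_div, hc1, div_one, hx.1]

/-- `x (1 + y)` is small -/
lemma pp_mul (hn : φ (-1) = 1) (hb : b ∉ XX φ) (hbb : b * b ≠ 1) {x y d : Fˣ} (hx : PP φ b x)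
    (hy : PP φ b y) (hd : (d : F) = 1 + y) : PP φ b (x * d) := by
  have hb1 := ne_one_of hb
  have hd1 : φ d = 1 := (sm_iff hd).1 hy.2
  have hxd : φ (x * d) = b := by rw [map_mul, hd1, mul_one, hx.1]
  refine ⟨hxd, ?_⟩
  obtain ⟨s, hs, h1⟩ := one_rig hn (x := x * d) (by rw [hxd]; exact hb)
  rw [hxd] at h1
  rw [sm_iff hs]
  refine h1.resolve_right fun h2 => ?_
  obtain ⟨c, hc, -⟩ := one_rig hn (x := x) (by rw [hx.1]; exact hb)
  have hc1 : φ c = 1 := (sm_iff hc).1 hx.2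
  have h3 := pp_neg hn hb hbb (pp_inv' hn hx hc).1
  rw [neg_neg] at h3
  obtain ⟨u, hu, h4⟩ := pp_two hn hb hbb h3 hy
  have e : s = c * u := by
    apply Units.ext
    have hc0 : (c : F) ≠ 0 := c.ne_zero
    rw [hs, Units.val_mul, Units.val_mul, hu, Units.val_div_eq_div_val, hd]
    field_simp
    rw [hc]
    ring
  have h5 : φ s = φ u := by rw [e, map_mul, hc1, one_mul]
  rw [← h5, h2] at h4
  rcases h4 with h4 | h4
  · exact hb1 h4
  · exact hb1 (by rwa [eq_comm, mul_eq_left] at h4)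

/-- `x / (1 + y)` is small -/
lemma pp_div (hn : φ (-1) = 1) (hb : b ∉ XX φ) (hbb : b * b ≠ 1) {x y d : Fˣ} (hx : PP φ b x)
    (hy : PP φ b y) (hd : (d : F) = 1 + y) : PP φ b (x / d) := by
  obtain ⟨h1, h2⟩ := pp_inv' hn hy hd
  rw [div_eq_mul_inv]
  exact pp_mul hn hb hbb hx h1 h2

/-- products of two small elements are small -/
lemma pp_sm (hn : φ (-1) = 1) (hb : b ∉ XX φ) (hbb : b * b ≠ 1) {x y : Fˣ} (hx : PP φ b x)
    (hy : PP φ b y) : Sm φ (x * y) := by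
  have hb1 := ne_one_of hb
  obtain ⟨u, hu, h1⟩ := pp_two hn hb hbb hx hy
  have hu' : (u : F) = 1 + ((x * y : Fˣ) : F) := by rw [hu, Units.val_mul]
  rw [sm_iff hu']
  refine h1.resolve_right fun h2 => ?_
  obtain ⟨d, hd, -⟩ := one_rig hn (x := y) (by rw [hy.1]; exact hb)
  have h3 := pp_mul hn hb hbb hx hy hd
  obtain ⟨s, hs, -⟩ := one_rig hn (x := x * d) (by rw [h3.1]; exact hb)
  have hs1 : φ s = 1 := (sm_iff hs).1 h3.2
  have ht : φ (u / (x * y)) = 1 := by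
    rw [map_div, map_mul, hx.1, hy.1, h2, div_self']
  have hyt : φ (y * (u / (x * y))) = b := by rw [map_mul, ht, mul_one, hy.1]
  obtain ⟨z, hz, h4⟩ := one_rig hn (x := y * (u / (x * y))) (by rw [hyt]; exact hb)
  rw [hyt] at h4
  have e : z = s / x := by
    apply Units.ext
    have hx0 : (x : F) ≠ 0 := x.ne_zero
    have hy0 : (y : F) ≠ 0 := y.ne_zero
    rw [hz, Units.val_mul, Units.val_div_eq_div_val, Units.val_div_eq_div_val, Units.val_mul, hu,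
      hs, Units.val_mul, hd]
    field_simp
    ring
  rw [e, map_div, hs1, hx.1, one_div] at h4
  rcases h4 with h4 | h4
  · exact hb1 (inv_eq_one.1 h4)
  · exact hbb (inv_eq_iff_mul_eq_one.1 h4)

/-- the small elements are linearly ordered -/
lemma pp_lin (hn : φ (-1) = 1) (hb : b ∉ XX φ) (hbb : b * b ≠ 1) {y : Fˣ} (hy : φ y = 1) :
    (∀ w, PP φ b w → PP φ b (y * w)) ∨ (∀ w, PP φ b w → PP φ b (y⁻¹ * w)) := by
  by_contra hc
  push Not at hc
  obtain ⟨⟨w, hw, h1⟩, ⟨w', hw', h2⟩⟩ := hc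
  have hb' : b⁻¹ ∉ XX φ := fun h => hb ((xx_inv hn).1 h)
  have hbb' : b⁻¹ * b⁻¹ ≠ 1 := by
    rw [← mul_inv]
    exact fun h => hbb (inv_eq_one.1 h)
  have key : ∀ v : Fˣ, φ v = b → ¬ PP φ b v → PP φ b⁻¹ v⁻¹ := by
    intro v hv h
    refine ⟨by rw [map_inv, hv], (sm_inv_iff hn (by rw [hv]; exact hb)).2 fun h3 => h ⟨hv, h3⟩⟩
  have h3 := key _ (by rw [map_mul, hy, one_mul, hw.1]) h1
  have h4 := key _ (by rw [map_mul, map_inv, hy, inv_one, one_mul, hw'.1]) h2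
  have h5 := pp_sm hn hb' hbb' h3 h4
  have e : (y * w)⁻¹ * (y⁻¹ * w')⁻¹ = (w * w')⁻¹ := by
    rw [← mul_inv, mul_mul_mul_comm, mul_inv_cancel, one_mul]
  rw [e] at h5
  have h6 := both (pp_sm hn hb hbb hw hw') h5
  rw [map_mul, hw.1, hw'.1] at h6
  exact hbb h6

end

end Pool.Agent.V7H42.EW
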